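import Pool.Agent.Helper797.RotFinal

set_option autoImplicit false

namespace Pool.Agent.Results.MP_f4a04c_gt.NoRotation

/-- Three-dimensional space. -/
abbrev R3 : Type := Fin 3 → ℝ

/-- The rotation group `SO(3)`: real `3 × 3` matrices `ρ` with `ρ ρᵀ = 1` and `det ρ = 1`, with
the topology it has as a subset of the space of matrices. -/
abbrev SO3 : Type := Matrix.specialOrthogonalGroup (Fin 3) ℝ

/-- A convex body: a non-empty compact convex subset of `R3`. -/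
def IsConvexBody (S : Set R3) : Prop := S.Nonempty ∧ IsCompact S ∧ Convex ℝ S

/-- `(ρ, x)` is an `S`-copy in `K`: `ρ(S) + x ⊆ K`. -/
def IsCopy (S K : Set R3) (ρ : SO3) (x : R3) : Prop :=
  ∀ s ∈ S, (ρ : Matrix (Fin 3) (Fin 3) ℝ).mulVec s + x ∈ K

/-- `K` is `S`-Kakeya: for every rotation `ρ` there is `x` with `ρ(S) + x ⊆ K`. -/
def IsKakeya (S K : Set R3) : Prop := ∀ ρ : SO3, ∃ x : R3, IsCopy S K ρ x

/-- The `S`-copies `(ρ₀, x₀)` and `(ρ₁, x₁)` can be rotated into each other within `K`. -/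
def CanBeRotated (S K : Set R3) (ρ₀ : SO3) (x₀ : R3) (ρ₁ : SO3) (x₁ : R3) : Prop :=
  ∃ (γ : unitInterval → SO3) (δ : unitInterval → R3), Continuous γ ∧ Continuous δ ∧
    γ 0 = ρ₀ ∧ δ 0 = x₀ ∧ γ 1 = ρ₁ ∧ δ 1 = x₁ ∧ ∀ t, IsCopy S K (γ t) (δ t)

/-- The Kakeya rotation property of a set `S ⊆ R3`. -/
def KakeyaRotationProperty (S : Set R3) : Prop :=
  ∀ K : Set R3, IsConvexBody K → IsKakeya S K →
    ∀ (ρ₀ : SO3) (x₀ : R3) (ρ₁ : SO3) (x₁ : R3),
      IsCopy S K ρ₀ x₀ → IsCopy S K ρ₁ x₁ → CanBeRotated S K ρ₀ x₀ ρ₁ x₁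

open Helper797.Rot in
/-- There is a convex body in `R3` without the Kakeya rotation property. -/
theorem result : ∃ S : Set R3, IsConvexBody S ∧ ¬ KakeyaRotationProperty S := by
  refine ⟨SS, ⟨SS_nonempty, SS_compact, SS_convex⟩, ?_⟩
  intro h
  have hKak : IsKakeya SS KK := fun ρ => kakeya_KK ρ.1 ρ.2
  -- rotation by a right angle about the third axis
  let R : Matrix (Fin 3) (Fin 3) ℝ := !![0, -1, 0; 1, 0, 0; 0, 0, 1]
  have hR : R ∈ Matrix.specialOrthogonalGroup (Fin 3) ℝ := by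
    rw [Matrix.mem_specialOrthogonalGroup_iff]
    refine ⟨(Matrix.mem_orthogonalGroup_iff (Fin 3) ℝ).mpr ?_, ?_⟩
    · ext i j
      fin_cases i <;> fin_cases j <;>
        simp [R, Matrix.mul_apply, Fin.sum_univ_three]
    · simp [R, Matrix.det_fin_three]
  obtain ⟨x₀, hx₀⟩ := hKak 1
  obtain ⟨x₁, hx₁⟩ := hKak ⟨R, hR⟩
  have hKne : KK.Nonempty := by
    obtain ⟨s, hs⟩ := SS_nonempty
    exact ⟨_, hx₀ s hs⟩
  obtain ⟨γ, δ, hγ, hδ, h0, -, h1, -, hc⟩ :=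
    h KK ⟨hKne, KK_compact, KK_convex⟩ hKak 1 x₀ ⟨R, hR⟩ x₁ hx₀ hx₁
  refine no_path (fun t => (γ t).1) δ (continuous_subtype_val.comp hγ) hδ
    (fun t => (γ t).2) hc ?_ ?_
  · rw [h0]; rfl
  · rw [h1]
    simp only [mgap, R]
    simp
    norm_num

end Pool.Agent.Results.MP_f4a04c_gt.NoRotation
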